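import Mathlib

namespace Pool.Agent.Results.MP_0d0d23_co.All

open Finset Sum Classical

variable {N : Type} [DecidableEq N]

/-- Player `i` is at least as desirable as player `j`. -/
def Ge (W : Finset N → Prop) (i j : N) : Prop :=
  ∀ S, i ∉ S → j ∉ S → W (insert j S) → W (insert i S)

def IsComplete (W : Finset N → Prop) : Prop :=
  (∀ S T, S ⊆ T → W S → W T) ∧ ∀ i j, Ge W i j ∨ Ge W j i

/-- The partial sums of the type of `S`: members at least as desirable as `k`. -/
noncomputable def ps (W : Finset N → Prop) (S : Finset N) (k : N) : ℕ :=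
  (S.filter fun i => Ge W i k).card

def ShiftMin (W : Finset N → Prop) (S : Finset N) : Prop :=
  W S ∧ ∀ T, (∀ k, ps W T k ≤ ps W S k) → ps W T ≠ ps W S → ¬ W T

def Robust (W : Finset N → Prop) (m : ℕ) : Prop :=
  ¬ ∃ j, 1 ≤ j ∧ j ≤ m ∧ ∃ X Y : Fin j → Finset N,
    (∀ p, (univ.filter fun i => p ∈ X i).card = (univ.filter fun i => p ∈ Y i).card) ∧
      (∀ i, ShiftMin W (X i)) ∧ ∀ i, ¬ W (Y i)

def Good (W : Finset N → Prop) (r m : ℕ) : Prop :=
  ¬ W ∅ ∧ (∀ i, ∃ S, W S ∧ i ∉ S) ∧ IsComplete W ∧ (ps W '' {S | ShiftMin W S}).ncard = r ∧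
    Robust W m ∧ ¬ Robust W (m + 1)

lemma step [Fintype N] {W : Finset N → Prop} {r m : ℕ} (h : Good W r m) :
    Good (fun S : Finset (N ⊕ Bool) => inr true ∈ S ∨ inr false ∈ S ∧ W S.toLeft) (r + 1) m := by
  obtain ⟨h0, hv, ⟨mo, co⟩, hr, rb⟩ := h
  set W' := fun S : Finset (N ⊕ Bool) => inr true ∈ S ∨ inr false ∈ S ∧ W S.toLeft with hW
  have g1 : ∀ i j, Ge W' (inl i) (inl j) ↔ Ge W i j := fun i j =>
    ⟨fun h S a b c => by simpa [hW] using h (S.disjSum {false}) (by simpa) (by simpa) (by simpa [hW]),
      fun h S a b c => by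
        simp only [hW, mem_insert, toLeft_insert_inl, reduceCtorEq, false_or] at c ⊢
        exact c.imp_right (And.imp_right (h _ (by simpa) (by simpa)))⟩
  have g2 : ∀ b i, Ge W' (inr b) (inl i) := fun b i S a _ c => by
    cases b <;> simp_all
  have g3 : ∀ b i, ¬ Ge W' (inl i) (inr b) := fun b i h => by
    obtain ⟨S, a, c⟩ := hv i
    have e : (S.map .inl : Finset (N ⊕ Bool)).toLeft = S := by ext; simp
    simpa [hW] using h (S.map .inl) (by simpa) (by simp) (by cases b <;> simp [hW, a, e])
  have g4 : ∀ b c, Ge W' (inr b) (inr c) ↔ c ≤ b := fun b c => by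
    cases b <;> cases c
    · simp [Ge]
    · exact iff_of_false (fun h => (h ∅ (by simp) (by simp) (by simp [hW])).elim (by simp)
        fun h => h0 h.2) (by simp)
    all_goals simp [Ge, hW]
  have c1 : ∀ S k, ps W' S (inl k) = ps W S.toLeft k + S.toRight.card := fun S k => by
    rw [ps, ← card_toLeft_add_card_toRight]
    congr 2 <;> ext <;> simp [g1, g2]
  have c2 : ∀ S b, ps W' S (inr b) = (S.toRight.filter (b ≤ ·)).card := fun S b => by
    rw [ps, ← card_toLeft_add_card_toRight, card_eq_zero.2 (by ext; simp [g3]), zero_add]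
    congr 1; ext; simp [g4]
  have g5 : ∀ x, Ge W' (inr true) x := by simp [g2, g4]
  have cP : ∀ x, ps W' {inr true} x = 1 := by simp [ps, filter_singleton, g5]
  have one : ∀ T, (∀ x, ps W' T x ≤ 1) → W' T → T = {inr true} := fun T a b => by
    have k : ∀ x ∈ T, ∀ y ∈ T, Ge W' x y → x = y := fun x c y d e =>
      card_le_one.1 (a y) x (mem_filter.2 ⟨c, e⟩) y (mem_filter.2 ⟨d, fun _ _ _ => id⟩)
    obtain b | b := b
    · exact eq_singleton_iff_unique_mem.2 ⟨b, fun x c => (k _ b x c (g5 x)).symm⟩
    · obtain ⟨i, e⟩ := nonempty_iff_ne_empty.2 fun e => h0 (e ▸ b.2)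
      cases k _ b.1 _ (mem_toLeft.1 e) (g2 _ _)
  have sm' : ∀ S, ShiftMin W' S ↔ S = {inr true} ∨
      S.toRight = {false} ∧ ShiftMin W S.toLeft := fun S => by
    constructor
    · rintro ⟨h, h'⟩
      by_cases t : inr true ∈ S
      · exact .inl (one S (fun x => (congrFun (of_not_not (mt (h' {inr true} fun x => (cP x).trans_le
          (card_pos.2 ⟨_, mem_filter.2 ⟨t, g5 x⟩⟩)) (by simp [hW]))) x).ge.trans (cP x).le) h)
      have h := h.resolve_left t
      have e : S.toRight = {false} := by ext b; cases b <;> simp [t, h.1]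
      exact .inr ⟨e, h.2, fun T a b c => h' (T.disjSum {false})
        (by rintro (k | b) <;> simp [c1, c2, a, e])
        (fun e' => b (funext fun k => by simpa [c1, e] using congrFun e' (inl k))) (by simpa [hW])⟩
    · rintro (rfl | ⟨e0, h, h'⟩)
      · exact ⟨by simp [hW], fun T a b c => b (congrArg _ (one T (by simpa [cP] using a) c))⟩
      · refine ⟨.inr ⟨mem_toRight.1 (e0 ▸ mem_singleton_self _), h⟩, fun T a b c => ?_⟩
        have e : inr true ∉ T := fun e => by
          simpa [c2, e0, Finset.Nonempty, Bool.le_iff_imp] using (show 0 < ps W' T (inr true) from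
            card_pos.2 ⟨_, mem_filter.2 ⟨e, g5 _⟩⟩).trans_le (a (inr true))
        have c := c.resolve_left e
        have e' : T.toRight = {false} := by ext b; cases b <;> simp [e, c.1]
        refine h' _ (fun k => by simpa [c1, e', e0] using a (inl k)) (fun k => b ?_) c.2
        ext (x | x) <;> simp [c1, c2, e', k, e0]
  have sm : ∀ A, ShiftMin W A → ShiftMin W' (A.disjSum {false}) := fun A h =>
    (sm' _).2 (.inr (by simpa))
  refine ⟨by simp [hW], ?_, ⟨fun S T a b => b.imp (@a _) fun b =>
    ⟨a b.1, mo _ _ (toLeft_subset_toLeft a) b.2⟩, ?_⟩, ?_, ?_⟩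
  · rintro (i | _ | _)
    · exact ⟨{inr true}, by simp [hW]⟩
    · exact ⟨{inr true}, by simp [hW]⟩
    · obtain ⟨j, e, -, X, -, -, h, -⟩ := of_not_not rb.2
      exact ⟨(X ⟨0, e⟩).disjSum {false}, by simp [hW, (h _).1]⟩
  · rintro (i | i) (j | j) <;> simp [g1, g2, g4, co, le_total]
  · have : ps W' '' {S | ShiftMin W' S} = insert (ps W' {inr true})
        ((fun c => Sum.elim (c + 1) fun b => if b then 0 else 1) ''
          (ps W '' {S | ShiftMin W S})) := by
      have k : ∀ A, ps W' (.disjSum A {false}) =
          Sum.elim (ps W A + 1) fun b => if b then 0 else 1 := fun A => by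
        ext (x | _ | _) <;> simp [c1, c2, filter_singleton]
      refine subset_antisymm ?_ (Set.insert_subset ⟨_, (sm' _).2 (.inl rfl), rfl⟩ ?_)
      · rintro _ ⟨S, h, rfl⟩
        obtain rfl | ⟨a, b⟩ := (sm' S).1 h
        · exact .inl rfl
        · exact .inr ⟨_, ⟨_, b, rfl⟩, by rw [← S.toLeft_disjSum_toRight, a, k, toLeft_disjSum]⟩
      · rintro _ ⟨_, ⟨A, h, rfl⟩, rfl⟩
        exact ⟨_, sm _ h, k A⟩
    rw [this, Set.ncard_insert_of_notMem, Set.ncard_image_of_injective, hr]
    · exact fun a b e => funext fun k => by simpa using congrFun e (inl k)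
    · rintro ⟨c, -, e⟩
      simpa [cP] using congrFun e (inr true)
  · suffices ∀ m, Robust W' m ↔ Robust W m by rwa [this, this]
    refine fun m => not_congr (exists_congr fun j => and_congr_right fun _ =>
      and_congr_right fun _ => ⟨?_, ?_⟩)
    · rintro ⟨X, Y, a, b, c⟩
      have t : ∀ i, (X i).toRight = {false} ∧ ShiftMin W (X i).toLeft := fun i =>
        ((sm' _).1 (b i)).resolve_left fun e => by
          obtain ⟨i, h⟩ := card_pos.1 ((card_pos.2 ⟨i, mem_filter.2 ⟨mem_univ _,
            e ▸ mem_singleton_self _⟩⟩).trans_eq (a (inr true)))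
          exact c i (.inl (mem_filter.1 h).2)
      have := a (inr false)
      rw [filter_true_of_mem fun i _ => mem_toRight.1 ((t i).1 ▸ mem_singleton_self _), eq_comm,
        card_filter_eq_iff] at this
      exact ⟨fun i => (X i).toLeft, fun i => (Y i).toLeft, fun p => by simpa using a (inl p),
        fun i => (t i).2, fun i e => c i (.inr ⟨this i (mem_univ _), e⟩)⟩
    · rintro ⟨X, Y, a, b, c⟩
      exact ⟨fun i => (X i).disjSum {false}, fun i => (Y i).disjSum {false},
        by rintro (p | p) <;> simp [a], fun i => sm _ (b i),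
        fun i => by simpa [hW] using c i⟩

def w (k a b c : ℕ) : Prop :=
  (1 ≤ a ∧ 2 ≤ a + b ∧ k + 1 ≤ a + b + c) ∨ (2 ≤ a ∧ 3 ≤ a + b + c)

lemma base (m : ℕ) (hm : 2 ≤ m) : Good (fun S : Finset (Fin 2 ⊕ Fin (m + 1) ⊕ Fin (m + 1)) =>
    w (m + 1) S.toLeft.card S.toRight.toLeft.card S.toRight.toRight.card) 2 m := by
  set W := fun S : Finset (Fin 2 ⊕ Fin (m + 1) ⊕ Fin (m + 1)) =>
    w (m + 1) S.toLeft.card S.toRight.toLeft.card S.toRight.toRight.card with hW
  let ρ : Fin 2 ⊕ Fin (m + 1) ⊕ Fin (m + 1) → ℕ := Sum.elim (fun _ => 0) (Sum.elim (fun _ => 1) fun _ => 2)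
  have g : ∀ i j, Ge W i j ↔ ρ i ≤ ρ j := fun i j => by
    constructor
    · intro h
      rcases i with i | i | i <;> rcases j with j | j | j <;> simp [ρ]
      · have := h ((univ.erase j).disjSum (.disjSum ∅ {0}))
        simp [hW, w, -empty_disjSum] at this
        omega
      · have := h ((univ.erase j).disjSum (.disjSum ∅ (univ.erase i)))
        simp [hW, w, -empty_disjSum, -insert_erase, card_erase_of_mem] at this
        omega
      · have := h (.disjSum {0} (.disjSum ∅ (univ.erase i)))
        simp [hW, w, -empty_disjSum, card_erase_of_mem] at this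
        omega
    · intro h S a b
      rcases i with i | i | i <;> rcases j with j | j | j <;> simp [ρ] at h <;>
        simp only [hW, w, toLeft_insert_inl, toLeft_insert_inr, toRight_insert_inl,
          toRight_insert_inr] <;>
        rw [card_insert_of_notMem (by simpa), card_insert_of_notMem (by simpa)] <;> omega
  have c0 : ∀ S i, ps W S (inl i) = S.toLeft.card := fun S i => by
    rw [ps, ← card_toLeft_add_card_toRight, (card_eq_zero (s := toRight _)).2 (by
      ext (x | x) <;> simp [g, ρ]), add_zero]
    congr 1; ext; simp [g, ρ]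
  have c1 : ∀ S i, ps W S (inr (inl i)) = S.toLeft.card + S.toRight.toLeft.card := fun S i => by
    rw [ps, ← card_toLeft_add_card_toRight, ← card_toLeft_add_card_toRight (u := toRight _),
      (card_eq_zero (s := toRight _)).2 (by ext; simp [g, ρ]), add_zero]
    congr 2 <;> ext <;> simp [g, ρ]
  have c2 : ∀ S i, ps W S (inr (inr i)) = S.toLeft.card + S.toRight.toLeft.card +
      S.toRight.toRight.card := fun S i => by
    rw [ps, filter_true_of_mem (by rintro (x | x | x) _ <;> simp [g, ρ]), add_assoc,
      card_toLeft_add_card_toRight, card_toLeft_add_card_toRight]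
  let A : Finset (Fin 2 ⊕ Fin (m + 1) ⊕ Fin (m + 1)) := .disjSum {0} (.disjSum {0} (univ.erase 0))
  let B : Finset (Fin 2 ⊕ Fin (m + 1) ⊕ Fin (m + 1)) := .disjSum univ (.disjSum ∅ {0})
  have ex : ∀ S T, ps W S = ps W T ↔ S.toLeft.card = T.toLeft.card ∧ S.toRight.toLeft.card =
      T.toRight.toLeft.card ∧ S.toRight.toRight.card = T.toRight.toRight.card := by
    simp only [funext_iff, Sum.forall, c0, c1, c2, forall_const]
    omega
  have sm : ∀ S, ShiftMin W S ↔ (S.toLeft.card = 1 ∧ S.toRight.toLeft.card = 1 ∧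
      S.toRight.toRight.card = m) ∨ S.toLeft.card = 2 ∧ S.toRight.toLeft.card = 0 ∧
      S.toRight.toRight.card = 1 := fun S => by
    simp only [ShiftMin, Ne, ex, Sum.forall, c0, c1, c2, forall_const]
    simp only [hW, w]
    have := (card_le_univ S.toLeft).trans_eq (Fintype.card_fin _)
    refine ⟨fun ⟨h, h'⟩ => ?_, fun h => ⟨by omega, fun T => by omega⟩⟩
    have a := h' A
    have b := h' B
    simp only [A, B, toLeft_disjSum, toRight_disjSum, card_singleton, card_empty, card_fin,
      card_erase_of_mem (mem_univ _)] at a b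
    omega
  refine ⟨by simp [hW, w, show toLeft ∅ = ∅ from rfl], ?_, ⟨fun S T a => ?_, ?_⟩, ?_, ?_, ?_⟩
  · rintro (i | i | i)
    · exact ⟨(univ.erase i).disjSum univ, .inl (by simp; omega), by simp⟩
    · exact ⟨B, by simp [hW, w, B, -empty_disjSum]⟩
    · exact ⟨.disjSum univ (.disjSum {0} ∅), by simp [hW, w, -disjSum_empty]⟩
  · have := card_le_card (toLeft_subset_toLeft a)
    have := card_le_card (toLeft_subset_toLeft (toRight_subset_toRight a))
    have := card_le_card (toRight_subset_toRight (toRight_subset_toRight a))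
    simp only [hW, w]
    omega
  · simp [g, le_total]
  · rw [show ps W '' _ = {ps W A, ps W B} by
      ext; simp only [Set.mem_image, Set.mem_ofPred, sm, Set.mem_insert_iff, Set.mem_singleton_iff]
      exact ⟨by rintro ⟨S, h, rfl⟩; simpa [ex, A, B, -empty_disjSum] using h,
        by rintro (rfl | rfl); exacts [⟨A, by simp [A], rfl⟩, ⟨B, by simp [B, -empty_disjSum], rfl⟩]⟩,
      Set.ncard_pair (by simp [ex, A, B])]
  · rintro ⟨j, j1, j2, X, Y, a, b, c⟩
    have s : ∀ {M : Type} [Fintype M] [DecidableEq M] {X Y : Fin j → Finset M},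
        (∀ p, (univ.filter fun i => p ∈ X i).card = (univ.filter fun i => p ∈ Y i).card) →
        ∑ i, (X i).card = ∑ i, (Y i).card := fun h => by
      simp only [card_filter] at h
      simp only [card_eq_sum_ite (subset_univ _)]
      rw [sum_comm, sum_congr rfl fun p _ => h p, sum_comm]
    have s0 := s (X := fun i => (X i).toLeft) (Y := fun i => (Y i).toLeft) fun p => by
      simpa using a (inl p)
    have s1 := s (X := fun i => (X i).toRight.toLeft) (Y := fun i => (Y i).toRight.toLeft)
      fun p => by simpa using a (inr (inl p))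
    have s2 := s (X := fun i => (X i).toRight.toRight) (Y := fun i => (Y i).toRight.toRight)
      fun p => by simpa using a (inr (inr p))
    have l0 := fun i => (card_le_univ (Y i).toLeft).trans_eq (Fintype.card_fin _)
    have l1 := fun i => (card_le_univ (Y i).toRight.toLeft).trans_eq (Fintype.card_fin _)
    have l2 := fun i => (card_le_univ (Y i).toRight.toRight).trans_eq (Fintype.card_fin _)
    simp only [sm] at b
    simp only [hW, w] at c
    by_cases z : ∃ i, (Y i).toLeft.card = 0
    · obtain ⟨i, z⟩ := z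
      have e1 : ∑ i : Fin j, (2 * m + 1) ≤ ∑ i, ((m + 1) * (X i).toLeft.card +
          (X i).toRight.toRight.card) := sum_le_sum fun i _ => by
        rcases b i with h | h <;> simp only [h] <;> omega
      have e2 : ∑ i, ((m + 1) * (Y i).toLeft.card + (Y i).toRight.toRight.card +
          if (Y i).toLeft.card = 0 then m + 1 else 0) ≤ ∑ i : Fin j, (2 * m + 2) :=
        sum_le_sum fun i _ => by
          have := c i
          have := l0 i
          have := l2 i
          generalize (Y i).toLeft.card = x at *
          interval_cases x <;> simp <;> omega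
      have e3 := single_le_sum (f := fun i => if (Y i).toLeft.card = 0 then m + 1 else 0)
        (fun _ _ => Nat.zero_le _) (mem_univ i)
      simp only [sum_add_distrib, ← mul_sum, s0, s2, z, if_true, sum_const, card_fin,
        smul_eq_mul] at e1 e2 e3
      nlinarith
    · have e := sum_lt_sum_of_nonempty (s := univ) ⟨⟨0, j1⟩, mem_univ _⟩
        (f := fun i => (m + 1) * ((m + 1) * (Y i).toLeft.card + (Y i).toRight.toLeft.card +
          (Y i).toRight.toRight.card) + (Y i).toRight.toLeft.card)
        (g := fun i => (m + 1) * ((m + 1) * (X i).toLeft.card + (X i).toRight.toLeft.card +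
          (X i).toRight.toRight.card) + (X i).toRight.toLeft.card) fun i _ => by
          have := c i
          have := l0 i
          have := l1 i
          have := l2 i
          have := not_exists.1 z i
          generalize (Y i).toLeft.card = x at *
          generalize (Y i).toRight.toLeft.card = y at *
          generalize (Y i).toRight.toRight.card = u at *
          have : (m + 1) * ((m + 1) * x + y + u) + y ≤ 2 * (m + 1) ^ 2 := by
            obtain rfl | rfl : x = 1 ∨ x = 2 := by omega
            · rcases y.eq_zero_or_pos with rfl | h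
              · nlinarith
              · nlinarith [show y + u ≤ m by omega]
            · rw [show y = 0 by omega, show u = 0 by omega]; nlinarith
          rcases b i with h | h <;> simp only [h] <;> nlinarith
      simp [sum_add_distrib, ← mul_sum, s0, s1, s2] at e
  · refine not_not.2 ⟨m + 1, by omega, le_rfl, fun i => .disjSum {if i = 0 then 1 else 0}
      (.disjSum {i} (univ.erase i)), fun i => if i = 0 then .disjSum univ ∅ else
      if i = 1 then .disjSum ∅ univ else .disjSum {0} (.disjSum ∅ univ), ?_,
      fun i => by simp [sm], fun i => by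
        beta_reduce; split_ifs <;>
          simp [hW, w, -empty_disjSum, -disjSum_empty, show toLeft ∅ = ∅ from rfl,
            show toRight ∅ = ∅ from rfl, show m ≠ 0 by omega]⟩
    have n : (1 : Fin (m + 1)) ≠ 0 := by simp; omega
    have f : ∀ {P Q : Fin (m + 1) → Prop} [DecidablePred P] [DecidablePred Q] (x y : Fin (m + 1)),
        (∀ i, P i ↔ i ≠ x) → (∀ i, Q i ↔ i ≠ y) → (univ.filter P).card = (univ.filter Q).card :=
      fun x y a b => by simp [a, b, filter_ne', card_erase_of_mem]
    have f' : ∀ {P Q : Fin (m + 1) → Prop} [DecidablePred P] [DecidablePred Q] (x y : Fin (m + 1)),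
        (∀ i, P i ↔ i = x) → (∀ i, Q i ↔ i = y) → (univ.filter P).card = (univ.filter Q).card :=
      fun x y a b => by simp [a, b, filter_eq']
    rintro (p | p | p)
    · fin_cases p
      · refine f 0 1 (fun i => ?_) fun i => ?_ <;> beta_reduce <;> split_ifs <;> simp [*, n.symm]
      · refine f' 0 0 (fun i => ?_) fun i => ?_ <;> beta_reduce <;> split_ifs <;> simp [*]
    · refine f' p 1 (fun i => by simp [eq_comm]) fun i => by
        beta_reduce; split_ifs <;> simp [*, n.symm]
    · refine f p 0 (fun i => by simp [eq_comm]) fun i => by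
        beta_reduce; split_ifs <;> simp [*]

theorem result (r m : ℕ) (hr : 2 ≤ r) (hm : 2 ≤ m) :
    ∃ (N : Type) (_ : Fintype N) (_ : DecidableEq N) (W : Finset N → Prop), IsComplete W ∧
      (ps W '' {S | ShiftMin W S}).ncard = r ∧ Robust W m ∧ ¬ Robust W (m + 1) := by
  suffices ∃ (N : Type) (_ : Fintype N) (_ : DecidableEq N) (W : Finset N → Prop), Good W r m by
    obtain ⟨N, a, b, W, h⟩ := this
    exact ⟨N, a, b, W, h.2.2⟩
  induction r, hr using Nat.le_induction with
  | base => exact ⟨_, inferInstance, _, _, base m hm⟩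
  | succ r _ ih =>
    obtain ⟨N, a, b, W, h⟩ := ih
    exact ⟨_, inferInstance, _, _, step h⟩

end Pool.Agent.Results.MP_0d0d23_co.All
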